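import Pool.Agent.Lib.SE.Z.Spec
import Pool.Agent.Lib.SE.X.MX
import Pool.Agent.Lib.SE.L.FnM

/-!
# PROJECT SE-Z: assembly (helper64)
-/

set_option autoImplicit false

open Module MeasureTheory Topology

noncomputable section

namespace SEZ

open HC HC.E HC.SE SEB SEQ SEG SEY SEX

/-! ## Another Riemann form -/

theorem ws_congr {T : AV} {m : ℕ} {D D₀ : Cyc T m} (h : D.Z = D₀.Z) (s : (ZMod m)ˣ) :
    Ws D s = Ws D₀ s := by
  ext a
  show (∀ v, a (D.Z v) = _) ↔ ∀ v, a (D₀.Z v) = _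
  rw [h]

theorem hits_congr {T : AV} {m : ℕ} {D D₀ : Cyc T m} (h : D.Z = D₀.Z)
    {k k₀ : Set (Module.End ℝ T.V)} (hk : ∀ Y ∈ Com k₀, Y ∈ Submodule.span ℝ (Com k))
    {F : Set (ZMod m)ˣ} (hH : Hits D₀ k₀ F) : Hits D k F := by
  intro A hA
  let ε : ∀ s, Ws D s ≃ₗ[ℂ] Ws D₀ s := fun s => LinearEquiv.ofEq _ _ (ws_congr h s)
  have hε : ∀ s (a : Ws D s), ((ε s a : Ws D₀ s) : Frm T) = (a : Frm T) := fun s a => rfl
  obtain ⟨C, hC, hCA⟩ := hH (fun s => (ε s).conj (A s)) fun s => by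
    rw [LinearMap.trace_conj']
    exact hA s
  refine ⟨C, ?_, fun s hs a => ?_⟩
  · have h1 : gg k₀ ≤ gg k := by
      refine Submodule.span_le.2 ?_
      rintro _ ⟨Y, hY, rfl⟩
      have h2 := hk Y hY
      refine Submodule.span_induction (p := fun Y _ => pre Y ∈ gg k)
        (fun Y hY => Submodule.subset_span ⟨Y, hY, rfl⟩) ?_ ?_ ?_ h2
      · have : pre (0 : Module.End ℝ T.V) = 0 := by
          refine LinearMap.ext fun a => LinearMap.ext fun v => ?_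
          simp [pre]
        rw [this]
        exact Submodule.zero_mem _
      · intro Y Y' _ _ h3 h4
        have : pre (Y + Y') = pre Y + pre Y' := by
          refine LinearMap.ext fun a => LinearMap.ext fun v => ?_
          simp [pre]
        rw [this]
        exact Submodule.add_mem _ h3 h4
      · intro x Y _ h3
        have : pre (x • Y) = (x : ℂ) • pre Y := by
          refine LinearMap.ext fun a => LinearMap.ext fun v => ?_
          simp [pre]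
        rw [this]
        exact Submodule.smul_mem _ _ h3
    exact h1 hC
  · have h1 := hCA s hs (ε s a)
    rw [hε] at h1
    rw [h1, LinearEquiv.conj_apply_apply, LinearEquiv.symm_apply_apply, hε]

/-- `GFw` does not depend on the Riemann form. -/
theorem gfw_congr {T : AV} {m r : ℕ} {D D₀ : Cyc T m} (h : D.Z = D₀.Z) (h0 : GFw D₀ r) :
    GFw D r := by
  refine ⟨h0.hm, h0.hr, h0.dim, fun k hk F hF => ?_⟩
  obtain ⟨k₀, hk₀, h1⟩ := tHl T m D₀ k hk.rat (fun X hX Y hY => hk.lie.br X hX Y hY) hk.J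
  exact hits_congr h h1 (h0.hit k₀ hk₀ F hF)

/-! ## Symmetry -/

theorem inX_symm {m r : ℕ} {b : Fin (r + 1) → ℕ} {m' r' : ℕ} {b' : Fin (r' + 1) → ℕ}
    {s : Fin (r + 1) → ℂ} {s' : Fin (r' + 1) → ℂ} (h : InX m' r' b' m r b s' s) :
    InX m r b m' r' b' s s' := by
  intro T T' hc hc' N D hZ hD N' D' hZ' hD'
  rcases h T' T hc' hc N' D' hZ' hD' N D hZ hD with h1 | h1
  · exact Or.inl (SEQ.Rep_aux.isg_symm HC.E.tIsoInv h1)
  · exact Or.inr (SEL.FnM_aux.ind_symm h1)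

/-! ## The points `pt` -/

theorem pt_comp {p r : ℕ} (s : Fin p → ℂ) (ι : Fin (r + 1) → Fin p) (k : Option (Fin p))
    (σ : Equiv.Perm (Fin (r + 1))) : pt s (ι ∘ σ) k = pt s ι k ∘ σ := by
  cases k <;> rfl

theorem okk_comp {p r : ℕ} {ι : Fin (r + 1) → Fin p} {k : Option (Fin p)} (h : Okk ι k)
    (σ : Equiv.Perm (Fin (r + 1))) : Okk (ι ∘ σ) k :=
  ⟨h.1.comp σ.injective, fun i hi j => h.2 i hi (σ j)⟩

theorem bs_comp {p r : ℕ} (ι : Fin (r + 1) → Fin p) (k : Option (Fin p))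
    (σ : Equiv.Perm (Fin (r + 1))) : Bs (ι ∘ σ) k = Bs ι k := by
  rw [Bs, Bs, Set.range_comp, σ.surjective.range_eq, Set.image_univ]

/-- The same branch set: the same `k`, and `ι'` is a permutation of `ι`. -/
theorem bs_eq {p r : ℕ} {ι ι' : Fin (r + 1) → Fin p} {k k' : Option (Fin p)} (h : Okk ι k)
    (h' : Okk ι' k') (hB : Bs ι k = Bs ι' k') :
    k = k' ∧ ∃ σ : Equiv.Perm (Fin (r + 1)), ι' = ι ∘ σ := by
  -- the cardinalities
  have hcard : ∀ (ι₁ ι₂ : Fin (r + 1) → Fin p) (i : Fin p), Okk ι₁ none → Okk ι₂ (some i) →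
      Bs ι₁ none ≠ Bs ι₂ (some i) := by
    intro ι₁ ι₂ i h1 h2 he
    have e1 : (Bs ι₁ none).ncard = r + 1 := by
      have : Bs ι₁ none = Set.range ι₁ := by
        ext x
        simp [Bs]
      rw [this, ← Set.image_univ, Set.ncard_image_of_injective _ h1.1, Set.ncard_univ,
        Nat.card_eq_fintype_card, Fintype.card_fin]
    have e2 : (Bs ι₂ (some i)).ncard = r + 2 := by
      have : Bs ι₂ (some i) = insert i (Set.range ι₂) := by
        ext x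
        simp only [Bs, Set.mem_union, Set.mem_insert_iff, Set.mem_ofPred_eq, Option.some.injEq]
        exact ⟨fun h => h.elim Or.inr fun h => Or.inl h.symm,
          fun h => h.elim (fun h => Or.inr h.symm) Or.inl⟩
      rw [this, Set.ncard_insert_of_notMem, ← Set.image_univ,
        Set.ncard_image_of_injective _ h2.1, Set.ncard_univ, Nat.card_eq_fintype_card,
        Fintype.card_fin]
      rintro ⟨j, hj⟩
      exact absurd (h2.2 i rfl j) (by rw [hj]; exact lt_irrefl i)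
    rw [he] at e1
    omega
  have hk : k = k' := by
    rcases k with _ | i
    · rcases k' with _ | i'
      · rfl
      · exact absurd hB (hcard ι ι' i' h h')
    · rcases k' with _ | i'
      · exact absurd hB.symm (hcard ι' ι i h' h)
      · have key : ∀ (ι₁ ι₂ : Fin (r + 1) → Fin p) (i₁ i₂ : Fin p), Okk ι₂ (some i₂) →
            Bs ι₁ (some i₁) = Bs ι₂ (some i₂) → i₁ ≤ i₂ := by
          intro ι₁ ι₂ i₁ i₂ h2 he
          have : i₁ ∈ Bs ι₂ (some i₂) := by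
            rw [← he]
            exact Or.inr rfl
          rcases this with ⟨j, hj⟩ | h3
          · rw [← hj]
            exact (h2.2 i₂ rfl j).le
          · exact (Option.some.inj h3).ge
        rw [le_antisymm (key ι ι' i i' h' hB) (key ι' ι i' i h hB.symm)]
  subst hk
  refine ⟨rfl, ?_⟩
  have hr : ∀ j, ∃ l, ι l = ι' j := by
    intro j
    have : ι' j ∈ Bs ι k := by
      rw [hB]
      exact Or.inl ⟨j, rfl⟩
    rcases this with h3 | h3
    · exact h3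
    · exact absurd (h'.2 (ι' j) h3 j) (lt_irrefl _)
  choose τ hτ using hr
  have hτi : Function.Injective τ := fun i j h => h'.1 (by rw [← hτ i, ← hτ j, h])
  refine ⟨Equiv.ofBijective τ (Finite.injective_iff_bijective.1 hτi), ?_⟩
  funext i
  rw [Function.comp_apply, Equiv.ofBijective_apply, hτ]

/-! ## Different sets of branch points -/

theorem pairC_inc (M : ModsX) (hP : S_zP) (hZC : S_zC) (p m r : ℕ) (b : Fin (r + 1) → ℕ)
    (m' : ℕ) (b' : Fin (r + 1) → ℕ) (ι ι' : Fin (r + 1) → Fin p) (k k' : Option (Fin p))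
    (i : Fin p) (hk : Okk ι k) (hk' : Okk ι' k') (hi : i ∈ Bs ι' k') (hi' : i ∉ Bs ι k)
    (hr : 1 ≤ r) (hW : HypW m r b) (hW' : HypW m' r b') :
    IsMeagre {s : Fin p → ℂ | Function.Injective s ∧ (Inc (pt s ι k) ∧ Inc (pt s ι' k')) ∧
      ¬ InX m r b m' r b' (pt s ι k) (pt s ι' k')} := by
  obtain ⟨N₀, hN₀, hC⟩ := M.kC m r b hr (SEX.pos_of_hypW hW)
  obtain ⟨N₁, hN₁, hC'⟩ := M.kC m' r b' hr (SEX.pos_of_hypW hW')
  obtain ⟨u, hum, huc, hp, hq⟩ := hW'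
  obtain ⟨hP1, -⟩ := hP
  have hmU : IsMeagre (⋃ z : ℕ, {s : Fin p → ℂ | Function.Injective s ∧
      (Admc m b z (pt s ι k) ∧ NDc m b z (pt s ι k)) ∧
      (Admc m' b' u (pt s ι' k') ∧ NDc m' b' u (pt s ι' k')) ∧
      ∃ B, AlgB B ∧ ∃ J J', IsJc m b z (pt s ι k) J ∧ IsJc m' b' u (pt s ι' k') J' ∧
        B * J = J' * B}) :=
    isMeagre_iUnion fun z => hZC p m m' r b b' z u ι ι' k k' i hk hk' hi hi' hp hq
  refine (((hP1 p r ι k hk N₀ hN₀).union (hP1 p r ι' k' hk' N₁ hN₁)).union hmU).mono ?_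
  rintro s ⟨hinj, ⟨hs, hs'⟩, hno⟩
  by_contra hbad
  rw [Set.mem_union, Set.mem_union, not_or, not_or] at hbad
  obtain ⟨⟨hb0, hb1⟩, hb2⟩ := hbad
  refine hno fun T T' hc hc' N D hZ hD N' D' hZ' hD' => Or.inr fun h hh s₀ t₀ => ?_
  by_contra hn
  obtain ⟨v, hv, hJ⟩ := hC _ hs (fun h => hb0 ⟨hinj, h⟩) hc T N D hZ
  obtain ⟨v', hv', hJ'⟩ := hC' _ hs' (fun h => hb1 ⟨hinj, h⟩) hc' T' N' D' hZ'
  obtain ⟨w, hw⟩ := exists_unit hum huc
  have hpw : D'.p w = sg m' r b' u := by rw [M.Pn T' m' r _ b' hc' N' D' hZ', hw]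
  have hpn : D'.p (-w) = sg m' r b' (m' - u) := by
    have : NeZero m' := ⟨by have := hc'.1; omega⟩
    rw [M.Pn T' m' r _ b' hc' N' D' hZ', Hit_aux.neg_val hc'.1 w, hw]
  have hsum : D'.p w + D'.p (-w) = r := (dim_all T' m' r D' hD'.hm hD'.dim w).2
  obtain ⟨s₁, θ, hθ, hθJ⟩ := (M.kT T T' m m' r r D D' hD hD' h hh s₀ t₀ hn).2 w (by omega)
    (by omega)
  obtain ⟨B, hB, hBJ⟩ := M.kA T T' m m' r D D' hD hD' v v' hv hv' h hh s₁ w θ hθ hθJ
  obtain ⟨J₁, hJ₁, -⟩ := M.kI T m r D hD.hm hD.dim v hv s₁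
  obtain ⟨J₂, hJ₂, -⟩ := M.kI T' m' r D' hD'.hm hD'.dim v' hv' w
  have hm3 := hc.1
  have : NeZero m := ⟨by omega⟩
  have hs₁m : (s₁ : ZMod m).val < m := ZMod.val_lt _
  have hs₁c : (s₁ : ZMod m).val.Coprime m := ZMod.val_coe_unit_coprime s₁
  refine hb2 (Set.mem_iUnion.2 ⟨(s₁ : ZMod m).val, hinj, ⟨⟨hs, hc, hs₁m, hs₁c⟩, (hJ s₁).1⟩,
    ⟨⟨hs', hc', hum, huc⟩, ?_⟩, B, hB, J₁, J₂, (hJ s₁).2 J₁ hJ₁, ?_, hBJ _ _ hJ₁ hJ₂⟩)
  · have := (hJ' w).1
    rwa [hw] at this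
  · have := (hJ' w).2 J₂ hJ₂
    rwa [hw] at this

theorem pairC (M : ModsX) (hP : S_zP) (hZC : S_zC) (p m r : ℕ) (b : Fin (r + 1) → ℕ)
    (m' : ℕ) (b' : Fin (r + 1) → ℕ) (ι ι' : Fin (r + 1) → Fin p) (k k' : Option (Fin p))
    (i : Fin p) (hk : Okk ι k) (hk' : Okk ι' k') (hi : i ∈ Bs ι' k') (hi' : i ∉ Bs ι k)
    (hr : 1 ≤ r) (hW : HypW m r b) (hW' : HypW m' r b') :
    IsMeagre {s : Fin p → ℂ | Function.Injective s ∧
      ¬ InX m r b m' r b' (pt s ι k) (pt s ι' k')} := by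
  have hP2 := hP.2.1
  have hmU : IsMeagre (⋃ z : Equiv.Perm (Fin (r + 1)) × Equiv.Perm (Fin (r + 1)),
      {s : Fin p → ℂ | Function.Injective s ∧
        (Inc (pt s (ι ∘ z.1) k) ∧ Inc (pt s (ι' ∘ z.2) k')) ∧
        ¬ InX m r (b ∘ z.1) m' r (b' ∘ z.2) (pt s (ι ∘ z.1) k) (pt s (ι' ∘ z.2) k')}) :=
    isMeagre_iUnion fun z => pairC_inc M hP hZC p m r (b ∘ z.1) m' (b' ∘ z.2) (ι ∘ z.1)
      (ι' ∘ z.2) k k' i (okk_comp hk z.1) (okk_comp hk' z.2) (by rw [bs_comp]; exact hi)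
      (by rw [bs_comp]; exact hi') hr (hypW_perm z.1 hW) (hypW_perm z.2 hW')
  refine (((hP2 p r ι k hk).union (hP2 p r ι' k' hk')).union hmU).mono ?_
  rintro s ⟨hinj, hno⟩
  by_contra hbad
  rw [Set.mem_union, Set.mem_union, not_or, not_or] at hbad
  obtain ⟨⟨hb0, hb1⟩, hb2⟩ := hbad
  have hb0' : ¬ ∀ σ : Equiv.Perm (Fin (r + 1)), ¬ Inc (pt s ι k ∘ σ) := fun h => hb0 ⟨hinj, h⟩
  have hb1' : ¬ ∀ σ : Equiv.Perm (Fin (r + 1)), ¬ Inc (pt s ι' k' ∘ σ) :=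
    fun h => hb1 ⟨hinj, h⟩
  push Not at hb0' hb1'
  obtain ⟨σ, hσ⟩ := hb0'
  obtain ⟨σ', hσ'⟩ := hb1'
  refine hb2 (Set.mem_iUnion.2 ⟨(σ, σ'), hinj, ?_, fun h => hno ?_⟩)
  · rw [pt_comp, pt_comp]
    exact ⟨hσ, hσ'⟩
  · rw [pt_comp, pt_comp] at h
    exact inX_perm M σ σ' h

/-! ## All pairs -/

/-- The bad set of two types of covers. -/
theorem pairX (M : ModsX) (hP : S_zP) (hZC : S_zC) (p m r : ℕ) (b : Fin (r + 1) → ℕ)
    (m' r' : ℕ) (b' : Fin (r' + 1) → ℕ) (ι : Fin (r + 1) → Fin p) (ι' : Fin (r' + 1) → Fin p)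
    (k k' : Option (Fin p)) (hk : Okk ι k) (hk' : Okk ι' k') (hr : 1 ≤ r)
    (h3 : 3 ≤ r ∨ Bs ι k ≠ Bs ι' k') (hW : HypW m r b) (hW' : HypW m' r' b') :
    IsMeagre {s : Fin p → ℂ | Function.Injective s ∧
      ¬ InX m r b m' r' b' (pt s ι k) (pt s ι' k')} := by
  by_cases hrr : r = r'
  swap
  · have : {s : Fin p → ℂ | Function.Injective s ∧
        ¬ InX m r b m' r' b' (pt s ι k) (pt s ι' k')} = ∅ :=
      Set.eq_empty_of_forall_notMem fun s hs => hs.2 (inX_ne M hrr)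
    rw [this]
    exact IsMeagre.empty
  subst hrr
  by_cases hB : Bs ι k = Bs ι' k'
  · have hr3 : 3 ≤ r := h3.resolve_right fun h => h hB
    obtain ⟨rfl, σ, rfl⟩ := bs_eq hk hk' hB
    refine (hP.1 p r ι k hk _ (pairS M m r b m' (b' ∘ σ.symm) hr3 hW
      (hypW_perm σ.symm hW'))).mono ?_
    rintro s ⟨hinj, hs⟩
    refine ⟨hinj, fun h => hs (inX_perm M (Equiv.refl _) σ.symm ?_)⟩
    have e1 : pt s (ι ∘ σ) k ∘ σ.symm = pt s ι k := by
      rw [pt_comp]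
      funext i
      simp only [Function.comp_apply, Equiv.apply_symm_apply]
    rw [e1]
    exact h
  · have : ∃ i, (i ∈ Bs ι' k' ∧ i ∉ Bs ι k) ∨ (i ∈ Bs ι k ∧ i ∉ Bs ι' k') := by
      by_contra hno
      push Not at hno
      exact hB (Set.ext fun i => ⟨fun h => (hno i).2 h, fun h => (hno i).1 h⟩)
    obtain ⟨i, ⟨h1, h2⟩ | ⟨h1, h2⟩⟩ := this
    · exact pairC M hP hZC p m r b m' b' ι ι' k k' i hk hk' h1 h2 hr hW hW'
    · refine (pairC M hP hZC p m' r b' m b ι' ι k' k i hk' hk h1 h2 hr hW' hW).mono ?_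
      rintro s ⟨hs1, hs2⟩
      exact ⟨hs1, fun h => hs2 (inX_symm h)⟩

/-! ## One meagre set -/

/-- **Jnz**: VERY GENERAL POINTS OF THE LINE. For given meagre sets `M m r b` there are meagre sets `M' p ⊆ ℂᵖ` such
that for `s ∉ M' p` no `pt s ι k` is in any `M m r b`, and any two cyclic covers branched at some of the points
`∞, s_1, …, s_p`, with at least 5 branch points, or with 4 branch points and different branch sets, are isogenous
or independent. -/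
def S_Jnz : Prop :=
  ∀ M : (m r : ℕ) → (Fin (r + 1) → ℕ) → Set (Fin (r + 1) → ℂ), (∀ m r b, IsMeagre (M m r b)) →
  ∃ M' : (p : ℕ) → Set (Fin p → ℂ), (∀ p, IsMeagre (M' p)) ∧
    ∀ (p : ℕ) (s : Fin p → ℂ), s ∉ M' p → Function.Injective s ∧
      (∀ (m r : ℕ) (b : Fin (r + 1) → ℕ) (ι : Fin (r + 1) → Fin p) (k : Option (Fin p)),
        Okk ι k → pt s ι k ∉ M m r b) ∧
      ∀ (m r : ℕ) (b : Fin (r + 1) → ℕ) (m' r' : ℕ) (b' : Fin (r' + 1) → ℕ)
        (ι : Fin (r + 1) → Fin p) (k : Option (Fin p)) (ι' : Fin (r' + 1) → Fin p)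
        (k' : Option (Fin p)), Okk ι k → Okk ι' k' → 2 ≤ r → 2 ≤ r' →
        (3 ≤ r ∨ Bs ι k ≠ Bs ι' k') → HypW m r b → HypW m' r' b' →
        IsCov m (pt s ι k) b → IsCov m' (pt s ι' k') b' →
        ∀ (T T' : AV) (N : New T m (pt s ι k) b) (N' : New T' m' (pt s ι' k') b')
          (D : Cyc T m) (D' : Cyc T' m'), D.Z = N.Z → D'.Z = N'.Z →
          (r = 2 → ∃ D₀ : Cyc T m, D₀.Z = N.Z ∧ GFw D₀ r) →
          (r' = 2 → ∃ D₀ : Cyc T' m', D₀.Z = N'.Z ∧ GFw D₀ r') → Isg T T' ∨ Ind D D'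

/-- Preimages of the sets `M m r b`. -/
def MP (M : (m r : ℕ) → (Fin (r + 1) → ℕ) → Set (Fin (r + 1) → ℂ)) (p : ℕ) :
    Set (Fin p → ℂ) :=
  ⋃ (m : ℕ) (r : ℕ) (b : Fin (r + 1) → ℕ) (ι : Fin (r + 1) → Fin p) (k : Option (Fin p)),
    {s | Okk ι k ∧ Function.Injective s ∧ pt s ι k ∈ M m r b}

theorem mp_meagre (M : (m r : ℕ) → (Fin (r + 1) → ℕ) → Set (Fin (r + 1) → ℂ))
    (hM : ∀ m r b, IsMeagre (M m r b)) (hP : S_zP) (p : ℕ) : IsMeagre (MP M p) := by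
  refine isMeagre_iUnion fun m => isMeagre_iUnion fun r => isMeagre_iUnion fun b =>
    isMeagre_iUnion fun ι => isMeagre_iUnion fun k => ?_
  by_cases hk : Okk ι k
  · exact (hP.1 p r ι k hk _ (hM m r b)).mono fun s hs => hs.2
  · have : {s : Fin p → ℂ | Okk ι k ∧ Function.Injective s ∧ pt s ι k ∈ M m r b} = ∅ :=
      Set.eq_empty_of_forall_notMem fun s hs => hk hs.1
    rw [this]
    exact IsMeagre.empty

theorem notMem_mp {M : (m r : ℕ) → (Fin (r + 1) → ℕ) → Set (Fin (r + 1) → ℂ)} {p : ℕ}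
    {s : Fin p → ℂ} (hs : Function.Injective s) (h : s ∉ MP M p) (m r : ℕ)
    (b : Fin (r + 1) → ℕ) (ι : Fin (r + 1) → Fin p) (k : Option (Fin p)) (hk : Okk ι k) :
    pt s ι k ∉ M m r b := by
  intro h1
  refine h ?_
  simp only [MP, Set.mem_iUnion]
  exact ⟨m, r, b, ι, k, hk, hs, h1⟩

/-- The bad sets of the pairs. -/
def MQ (p : ℕ) : Set (Fin p → ℂ) :=
  ⋃ (m : ℕ) (r : ℕ) (b : Fin (r + 1) → ℕ) (m' : ℕ) (r' : ℕ) (b' : Fin (r' + 1) → ℕ)
    (ι : Fin (r + 1) → Fin p) (ι' : Fin (r' + 1) → Fin p) (k : Option (Fin p))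
    (k' : Option (Fin p)),
    {s | (Okk ι k ∧ Okk ι' k' ∧ 1 ≤ r ∧ (3 ≤ r ∨ Bs ι k ≠ Bs ι' k') ∧ HypW m r b ∧
      HypW m' r' b') ∧ Function.Injective s ∧ ¬ InX m r b m' r' b' (pt s ι k) (pt s ι' k')}

theorem mq_meagre (M : ModsX) (hP : S_zP) (hZC : S_zC) (p : ℕ) : IsMeagre (MQ p) := by
  refine isMeagre_iUnion fun m => isMeagre_iUnion fun r => isMeagre_iUnion fun b =>
    isMeagre_iUnion fun m' => isMeagre_iUnion fun r' => isMeagre_iUnion fun b' =>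
    isMeagre_iUnion fun ι => isMeagre_iUnion fun ι' => isMeagre_iUnion fun k =>
    isMeagre_iUnion fun k' => ?_
  by_cases h : Okk ι k ∧ Okk ι' k' ∧ 1 ≤ r ∧ (3 ≤ r ∨ Bs ι k ≠ Bs ι' k') ∧ HypW m r b ∧
      HypW m' r' b'
  · obtain ⟨h1, h2, h3, h4, h5, h6⟩ := h
    exact (pairX M hP hZC p m r b m' r' b' ι ι' k k' h1 h2 h3 h4 h5 h6).mono
      fun s hs => hs.2
  · refine (IsMeagre.empty).mono fun s hs => ?_
    exact absurd hs.1 h

/-- **Jnz.** -/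
theorem jnz_of (Ms : ModsX) (hP : S_zP) (hZC : S_zC) : S_Jnz := by
  intro M hM
  refine ⟨fun p => ((MP M p ∪ MP MMx p) ∪ MQ p) ∪ {s | ¬ Function.Injective s}, fun p =>
    (((mp_meagre M hM hP p).union (mp_meagre MMx SEB.tMx hP p)).union
      (mq_meagre Ms hP hZC p)).union (hP.2.2 p), ?_⟩
  intro p s hs
  rw [Set.mem_union, Set.mem_union, Set.mem_union, not_or, not_or, not_or] at hs
  obtain ⟨⟨⟨h1, h2⟩, h3⟩, h4⟩ := hs
  have hinj : Function.Injective s := not_not.1 h4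
  refine ⟨hinj, notMem_mp hinj h1, ?_⟩
  intro m r b m' r' b' ι k ι' k' hk hk' hr hr' h5 hW hW' hc hc' T T' N N' D D' hD hD' h6 h7
  have h8 : InX m r b m' r' b' (pt s ι k) (pt s ι' k') := by
    by_contra hno
    refine h3 ?_
    simp only [MQ, Set.mem_iUnion]
    exact ⟨m, r, b, m', r', b', ι, ι', k, k', ⟨hk, hk', by omega, h5, hW, hW'⟩, hinj, hno⟩
  have key : ∀ (m r : ℕ) (b : Fin (r + 1) → ℕ) (ι : Fin (r + 1) → Fin p)
      (k : Option (Fin p)), Okk ι k → 2 ≤ r → HypW m r b → IsCov m (pt s ι k) b →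
      ∀ (T : AV) (N : New T m (pt s ι k) b) (D : Cyc T m), D.Z = N.Z →
      (r = 2 → ∃ D₀ : Cyc T m, D₀.Z = N.Z ∧ GFw D₀ r) → GFw D r := by
    intro m r b ι k hk hr hW hc T N D hD h
    by_cases hr2 : r = 2
    · obtain ⟨D₀, e1, e2⟩ := h hr2
      exact gfw_congr (hD.trans e1.symm) e2
    · exact (gfw_of_MMx (by omega) hW hc (notMem_mp hinj h2 m r b ι k hk) N D hD).1
  exact h8 T T' hc hc' N D hD (key m r b ι k hk hr hW hc T N D hD h6) N' D' hD'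
    (key m' r' b' ι' k' hk' hr' hW' hc' T' N' D' hD' h7)

end SEZ
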