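import Pool.Agent.Lib.SE.Z.Spec
import Pool.Agent.Lib.SE.Y.kB2

/-!
# PROJECT SE-Z, module zC: the Baire argument, different sets of branch points (helper28, after SE/X/xC.lean)
-/

set_option autoImplicit false

open Module MeasureTheory Topology

noncomputable section

namespace SEZ

open HC HC.E HC.SE SEB SEQ SEG SEY SEX

namespace zC_aux

open cCj_aux

/-- the injective points -/
def Ij (p : ℕ) : Set (Fin p → ℂ) := {s | Function.Injective s}

theorem open_Ij (p : ℕ) : IsOpen (Ij p) := by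
  have h1 : Ij p = ⋂ i : Fin p, ⋂ j : Fin p, {s : Fin p → ℂ | i ≠ j → s i ≠ s j} := by
    ext s
    simp only [Ij, Set.mem_ofPred_eq, Set.mem_iInter, Function.Injective]
    constructor
    · intro h i j hij hs
      exact hij (h hs)
    · intro h i j hs
      by_contra hij
      exact h i j hij hs
  rw [h1]
  refine isOpen_iInter_of_finite fun i => isOpen_iInter_of_finite fun j => ?_
  by_cases hij : i = j
  · have : {s : Fin p → ℂ | i ≠ j → s i ≠ s j} = Set.univ := by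
      ext s
      simp [hij]
    rw [this]
    exact isOpen_univ
  · have : {s : Fin p → ℂ | i ≠ j → s i ≠ s j} = {s : Fin p → ℂ | s i ≠ s j} := by
      ext s
      simp [hij]
    rw [this]
    exact isOpen_ne_fun (continuous_apply i) (continuous_apply j)

/-- `pt` is continuous on the injective points -/
theorem cont_pt {p r : ℕ} {ι : Fin (r + 1) → Fin p} {k : Option (Fin p)} (h : Okk ι k) :
    ContinuousOn (fun s : Fin p → ℂ => pt s ι k) (Ij p) := by
  cases k with
  | none => exact (continuous_pi fun j => continuous_apply (ι j)).continuousOn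
  | some i =>
    refine continuousOn_pi.2 fun j => ?_
    show ContinuousOn (fun s : Fin p → ℂ => (s (ι j) - s i)⁻¹) (Ij p)
    refine ContinuousOn.inv₀ ((continuous_apply (ι j)).sub (continuous_apply i)).continuousOn ?_
    intro s hs h0
    have h1 : ι j < i := h.2 i rfl j
    exact (ne_of_lt h1) (hs (sub_eq_zero.1 h0))

/-- the points linked by `B` -/
def XX (p : ℕ) (m m' : ℕ) {r : ℕ} (b b' : Fin (r + 1) → ℕ) (u v : ℕ) (ι ι' : Fin (r + 1) → Fin p)
    (k k' : Option (Fin p)) (B : Module.End ℂ (Fin r → ℂ)) : Set (Fin p → ℂ) :=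
  {s | Function.Injective s ∧ (Admc m b u (pt s ι k) ∧ NDc m b u (pt s ι k)) ∧
      (Admc m' b' v (pt s ι' k') ∧ NDc m' b' v (pt s ι' k')) ∧
      ∃ J J', IsJc m b u (pt s ι k) J ∧ IsJc m' b' v (pt s ι' k') J' ∧ B * J = J' * B}

/-- the shift of one coordinate -/
def sh {n : ℕ} (s : Fin n → ℂ) (i : Fin n) (ε : ℂ) : Fin n → ℂ :=
  fun j => if j = i then s j + ε else s j

theorem sh_cont {n : ℕ} (s : Fin n → ℂ) (i : Fin n) : Continuous (sh s i) := by
  refine continuous_pi fun j => ?_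
  unfold sh
  by_cases h : j = i
  · simp only [h, if_true]
    exact continuous_const.add continuous_id
  · simp only [h, if_false]
    exact continuous_const

theorem sh_zero {n : ℕ} (s : Fin n → ℂ) (i : Fin n) : sh s i 0 = s := by
  funext j
  unfold sh
  split
  · rw [add_zero]
  · rfl

theorem sh_deriv {n : ℕ} (s : Fin n → ℂ) (i j : Fin n) :
    HasDerivAt (fun ε : ℝ => sh s i (ε : ℂ) j) (if j = i then 1 else 0) 0 := by
  unfold sh
  by_cases h : j = i
  · simp only [h, if_true]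
    exact (Complex.ofRealCLM.hasDerivAt (x := (0 : ℝ))).const_add (s i)
  · simp only [h, if_false]
    exact hasDerivAt_const _ _

/-- the shift of a coordinate outside of `Bs ι k` does not change `pt` -/
theorem pt_sh {p r : ℕ} {ι : Fin (r + 1) → Fin p} {k : Option (Fin p)} {i : Fin p}
    (hi : i ∉ Bs ι k) (s : Fin p → ℂ) (ε : ℂ) : pt (sh s i ε) ι k = pt s ι k := by
  have h1 : ∀ j, ι j ≠ i := fun j h => hi (Or.inl ⟨j, h⟩)
  have h2 : ∀ j, sh s i ε (ι j) = s (ι j) := fun j => if_neg (h1 j)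
  cases k with
  | none =>
    funext j
    exact h2 j
  | some i' =>
    have h3 : i' ≠ i := fun h => hi (Or.inr (by rw [h]; rfl))
    funext j
    show (sh s i ε (ι j) - sh s i ε i')⁻¹ = (s (ι j) - s i')⁻¹
    rw [h2, show sh s i ε i' = s i' from if_neg h3]

/-- the curve -/
theorem curve {p r : ℕ} {ι : Fin (r + 1) → Fin p} {k : Option (Fin p)} {i : Fin p} (hok : Okk ι k)
    (hi : i ∈ Bs ι k) (s : Fin p → ℂ) (hs : Function.Injective s) :
    ∃ v : Fin (r + 1) → ℂ, HasDerivAt (fun ε : ℝ => pt (sh s i (ε : ℂ)) ι k) v 0 ∧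
      ((∃ l, v l ≠ 0 ∧ ∀ j, j ≠ l → v j = 0) ∨ ∀ j, v j = pt s ι k j ^ 2) := by
  cases k with
  | none =>
    obtain ⟨l, hl⟩ : ∃ l, ι l = i := by
      rcases hi with h | h
      · exact h
      · exact absurd h (by simp)
    refine ⟨fun j => if ι j = i then 1 else 0, hasDerivAt_pi.2 fun j => sh_deriv s i (ι j), Or.inl ⟨l, ?_, ?_⟩⟩
    · simp [hl]
    · intro j hj
      have : ι j ≠ i := fun h => hj (hok.1 (h.trans hl.symm))
      simp [this]
  | some i' =>
    have hne : ∀ j, s (ι j) - s i' ≠ 0 := by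
      intro j h0
      exact (ne_of_lt (hok.2 i' rfl j)) (hs (sub_eq_zero.1 h0))
    have hd : ∀ j, HasDerivAt (fun ε : ℝ => (sh s i (ε : ℂ) (ι j) - sh s i (ε : ℂ) i')⁻¹)
        (-((if ι j = i then (1 : ℂ) else 0) - (if i' = i then 1 else 0)) / (s (ι j) - s i') ^ 2) 0 := by
      intro j
      have h1 := (sh_deriv s i (ι j)).sub (sh_deriv s i i')
      have h2 : sh s i ((0 : ℝ) : ℂ) = s := by rw [Complex.ofReal_zero, sh_zero]
      have h3 := h1.inv (by
        simp only [Pi.sub_apply, h2]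
        exact hne j)
      simp only [Pi.sub_apply, h2] at h3
      exact h3
    refine ⟨_, hasDerivAt_pi.2 fun j => hd j, ?_⟩
    by_cases hii : i' = i
    · right
      intro j
      have h4 : ι j ≠ i := fun h => (ne_of_lt (hok.2 i' rfl j)) (h.trans hii.symm)
      show _ = ((s (ι j) - s i')⁻¹) ^ 2
      rw [if_neg h4, if_pos hii]
      rw [inv_pow]
      ring
    · left
      obtain ⟨l, hl⟩ : ∃ l, ι l = i := by
        rcases hi with h | h
        · exact h
        · exact absurd (Option.some.inj h) hii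
      refine ⟨l, ?_, ?_⟩
      · show _ / _ ≠ (0 : ℂ)
        rw [if_pos hl, if_neg hii]
        exact div_ne_zero (by norm_num) (pow_ne_zero 2 (hne l))
      · intro j hj
        have : ι j ≠ i := fun h => hj (hok.1 (h.trans hl.symm))
        show _ / _ = (0 : ℂ)
        rw [if_neg this, if_neg hii]
        simp

theorem nd (hzN : S_zN) (hzP : S_zP) (hN : S_cN) (hK : S_cKap) (hPv : S_cPv) (hC : S_cC)
    (hJx : S_cJx) (hCj : S_cCj) (hSg : S_Sg) {p m m' r : ℕ} {b b' : Fin (r + 1) → ℕ} {u v : ℕ}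
    {ι ι' : Fin (r + 1) → Fin p} {k k' : Option (Fin p)} {i : Fin p} (hok : Okk ι k)
    (hok' : Okk ι' k') (hi' : i ∈ Bs ι' k') (hi : i ∉ Bs ι k)
    (hp : 0 < sg m' r b' v) (hq : 0 < sg m' r b' (m' - v)) (B : Module.End ℂ (Fin r → ℂ))
    (hB : Function.Injective B) : IsNowhereDense (XX p m m' b b' u v ι ι' k k' B) := by
  by_cases hA : ∃ x : Fin p → ℂ, x ∈ XX p m m' b b' u v ι ι' k k' B
  swap
  · have h1 : XX p m m' b b' u v ι ι' k k' B = ∅ := by
      ext s
      simp only [Set.mem_empty_iff_false, iff_false]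
      exact fun h => hA ⟨s, h⟩
    rw [h1]
    exact isNowhereDense_empty
  obtain ⟨x0, -, hx0, hx0', -⟩ := hA
  have hu : sg m r b u + sg m r b (m - u) = r := hSg m r _ b hx0.1.2.1 u hx0.1.2.2.1 hx0.1.2.2.2
  have hv : sg m' r b' v + sg m' r b' (m' - v) = r :=
    hSg m' r _ b' hx0'.1.2.1 v hx0'.1.2.2.1 hx0'.1.2.2.2
  set O : Set (Fin (r + 1) → ℂ) := {s | Admc m b u s ∧ NDc m b u s} with hOd
  set O' : Set (Fin (r + 1) → ℂ) := {s | Admc m' b' v s ∧ NDc m' b' v s} with hOd'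
  have hO : IsOpen O := (hCj m r b u).1
  have hO' : IsOpen O' := (hCj m' r b' v).1
  set Op : Set (Fin p → ℂ) := (Ij p ∩ (fun s => pt s ι k) ⁻¹' O) ∩
    (Ij p ∩ (fun s => pt s ι' k') ⁻¹' O') with hOpd
  have hOp : IsOpen Op := ((cont_pt hok).isOpen_inter_preimage (open_Ij p) hO).inter
    ((cont_pt hok').isOpen_inter_preimage (open_Ij p) hO')
  set F : (Fin p → ℂ) → Matrix (Fin r) (Fin r) ℂ := fun x =>
    LinearMap.toMatrix' B * JM hu (pt x ι k) - JM hv (pt x ι' k') * LinearMap.toMatrix' B with hFd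
  have hF : ContinuousOn F Op := by
    have j1 : ContinuousOn (fun x : Fin p → ℂ => JM hu (pt x ι k)) Op :=
      (eB_aux.JM_cont hK hPv hC hu).comp ((cont_pt hok).mono fun x hx => hx.1.1) fun x hx => hx.1.2
    have j2 : ContinuousOn (fun x : Fin p → ℂ => JM hv (pt x ι' k')) Op :=
      (eB_aux.JM_cont hK hPv hC hv).comp ((cont_pt hok').mono fun x hx => hx.2.1) fun x hx => hx.2.2
    exact (continuousOn_const.mul j1).sub (j2.mul continuousOn_const)
  have hX : ∀ x ∈ Op, (x ∈ XX p m m' b b' u v ι ι' k k' B ↔ F x = 0) := by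
    intro x hx
    rw [hFd]
    rw [← kB2_aux.lk_iff hPv hJx hu hv hx.1.2.1 hx.1.2.2 hx.2.2.1 hx.2.2.2 B]
    exact ⟨fun h => h.2.2.2, fun h => ⟨hx.1.1, hx.1.2, hx.2.2, h⟩⟩
  unfold IsNowhereDense
  by_contra hne
  obtain ⟨x₀, hx₀⟩ := Set.nonempty_iff_ne_empty.mpr hne
  have hWo : IsOpen (interior (closure (XX p m m' b b' u v ι ι' k k' B))) := isOpen_interior
  obtain ⟨x₂, k1, k2⟩ := mem_closure_iff.mp (interior_subset hx₀) _ hWo hx₀
  set W : Set (Fin p → ℂ) := interior (closure (XX p m m' b b' u v ι ι' k k' B)) ∩ Op with hW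
  have hWO : IsOpen W := hWo.inter hOp
  have hz : ∀ x ∈ W, F x = 0 := by
    intro x hx
    by_contra hne'
    have hcont : ContinuousAt F x := hF.continuousAt (hOp.mem_nhds hx.2)
    obtain ⟨V, hV1, hV2, hV3⟩ := eventually_nhds_iff.mp (hcont.eventually_ne hne')
    obtain ⟨x', h5, h6⟩ := mem_closure_iff.mp (interior_subset hx.1) V hV2 hV3
    exact hV1 x' h5 ((hX x' ⟨⟨h6.1, h6.2.1⟩, h6.1, h6.2.2.1⟩).1 h6)
  -- the inverse of `B`
  set e : (Fin r → ℂ) ≃ₗ[ℂ] (Fin r → ℂ) := LinearEquiv.ofInjectiveEndo B hB with he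
  set Bi : Module.End ℂ (Fin r → ℂ) := e.symm.toLinearMap with hBi
  have hBB : B * Bi = 1 := by
    refine LinearMap.ext fun v => ?_
    rw [Module.End.mul_apply, Module.End.one_apply]
    have h1 : B (e.symm v) = e (e.symm v) := rfl
    rw [hBi]
    show B (e.symm v) = v
    rw [h1, LinearEquiv.apply_symm_apply]
  have hWn : W.Nonempty := ⟨x₂, k1, ⟨⟨k2.1, k2.2.1⟩, k2.1, k2.2.2.1⟩⟩
  -- a point with `Nj`
  obtain ⟨s₂, hs₂⟩ := hWn
  obtain ⟨-, c2, -, -⟩ := hK m' r b' v (pt s₂ ι' k') hs₂.2.2.2.1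
  have hde : Dense ({s : Fin p → ℂ | Function.Injective s ∧
      pt s ι' k' ∈ {z : Fin (r + 1) → ℂ | Inc z ∧ ¬ Nj (mu m' b' v) z}})ᶜ :=
    dense_of_mem_residual (hzP.1 p r ι' k' hok' _ (hN r (mu m' b' v) c2))
  obtain ⟨s, hs, hs'⟩ := hde.inter_open_nonempty _ hWO ⟨s₂, hs₂⟩
  have hsI : Function.Injective s := hs.2.1.1
  have hadm : Admc m' b' v (pt s ι' k') := hs.2.2.2.1
  have hnd : NDc m' b' v (pt s ι' k') := hs.2.2.2.2
  have hNj : Nj (mu m' b' v) (pt s ι' k') := by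
    by_contra hn
    exact hs' ⟨hsI, hadm.1, hn⟩
  -- the operator of the first factor
  obtain ⟨J1, hJ1, u1, -⟩ := hJx m r b u (pt s ι k) hs.2.1.2.1 hs.2.1.2.2
  obtain ⟨J, hJ, u2, -⟩ := hJx m' r b' v (pt s ι' k') hadm hnd
  have hJ3 : J = B * J1 * Bi := by
    obtain ⟨-, -, -, K, K', hK1, hK2, h8⟩ := (hX _ hs.2).2 (hz _ hs)
    rw [u1 K hK1] at h8
    rw [u2 K' hK2] at h8
    rw [h8, mul_assoc, hBB, mul_one]
  obtain ⟨vel, hvel, hcond⟩ := curve (i := i) hok' hi' s hsI
  have hc0 : (fun ε : ℝ => pt (sh s i (ε : ℂ)) ι' k') 0 = pt s ι' k' := by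
    simp only [Complex.ofReal_zero, sh_zero]
  refine hzN m' r b' v (pt s ι' k') hadm hnd hNj hp hq (fun ε : ℝ => pt (sh s i (ε : ℂ)) ι' k') vel hc0
    hvel hcond J hJ ?_
  have hev : ∀ᶠ ε : ℝ in 𝓝 (0 : ℝ), sh s i (ε : ℂ) ∈ W := by
    have hc : Continuous fun ε : ℝ => sh s i (ε : ℂ) := (sh_cont s i).comp Complex.continuous_ofReal
    have h1 : W ∈ 𝓝 (sh s i ((0 : ℝ) : ℂ)) := by
      rw [Complex.ofReal_zero, sh_zero]
      exact hWO.mem_nhds hs
    exact hc.continuousAt (x := (0 : ℝ)) h1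
  refine hev.mono fun ε hε => ?_
  obtain ⟨-, -, -, K, K', hK1, hK2, h8⟩ := (hX _ hε.2).2 (hz _ hε)
  rw [pt_sh hi] at hK1
  rw [u1 K hK1] at h8
  have h9 : K' = J := by
    rw [hJ3, h8, mul_assoc, hBB, mul_one]
  rw [← h9]
  exact hK2

end zC_aux

open zC_aux

/-- Module zC: the Baire argument, different sets of branch points. -/
theorem tzC : S_zN → S_zP → S_cN → S_cKap → S_cPv → S_cC → S_cI → S_cJx → S_cCj → S_Sg → S_zC := by
  intro hzN hzP hN hK hPv hC _ hJx hCj hSg p m m' r b b' u v ι ι' k k' i hok hok' hi' hi hp hq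
  have : Countable (cBa2_aux.Al r) := (cBa2_aux.countable_Al r).to_subtype
  have hMe : IsMeagre (⋃ θ : cBa2_aux.Al r,
      {x : Fin p → ℂ | Function.Injective (θ : Module.End ℂ (Fin r → ℂ)) ∧
          x ∈ XX p m m' b b' u v ι ι' k k' (θ : Module.End ℂ (Fin r → ℂ))}) := by
    refine isMeagre_iUnion fun θ => ?_
    by_cases hinj : Function.Injective (θ : Module.End ℂ (Fin r → ℂ))
    · refine (nd (m := m) (b := b) (u := u) hzN hzP hN hK hPv hC hJx hCj hSg hok hok' hi' hi hp hq _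
        hinj).isMeagre.mono ?_
      rintro s ⟨_, hs⟩
      exact hs
    · have h1 : {x : Fin p → ℂ | Function.Injective (θ : Module.End ℂ (Fin r → ℂ)) ∧
            x ∈ XX p m m' b b' u v ι ι' k k' (θ : Module.End ℂ (Fin r → ℂ))} = ∅ := by
        ext s
        constructor
        · rintro ⟨h, _⟩
          exact absurd h hinj
        · intro h
          exact absurd h (Set.notMem_empty s)
      rw [h1]
      exact IsMeagre.empty
  refine hMe.mono ?_
  rintro x ⟨h0, h1, h2, B, h3, J, J', h4, h5, h6⟩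
  exact Set.mem_iUnion.2 ⟨⟨B, h3.2⟩, h3.1, h0, h1, h2, J, J', h4, h5, h6⟩

end SEZ
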