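import Pool.Agent.Lib.SE.Z.Spec

/-!
# PROJECT SE-Z, module zD: the chain rule for the integrals (helper92)
-/

set_option autoImplicit false

open Module MeasureTheory Topology

noncomputable section

namespace SEZ

open HC HC.E HC.SE SEB SEQ SEG SEY SEX

namespace zD_aux

/-- A bounded function which is complex differentiable along lines is locally Lipschitz. -/
theorem lip {n : ℕ} (F : (Fin n → ℂ) → ℂ) (s : Fin n → ℂ) (R C : ℝ) (hR : 0 < R)
    (hd : ∀ x ∈ Metric.ball s R, ∀ v : Fin n → ℂ, DifferentiableAt ℂ (fun ε : ℂ => F (x + ε • v)) 0)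
    (hC : ∀ x ∈ Metric.ball s R, ‖F x‖ ≤ C) (x y : Fin n → ℂ) (hx : x ∈ Metric.ball s (R / 4))
    (hy : y ∈ Metric.ball s (R / 4)) : ‖F y - F x‖ ≤ C / (R / 5) * ‖y - x‖ := by
  by_cases hxy : y = x
  · rw [hxy, sub_self, sub_self, norm_zero, norm_zero, mul_zero]
  have hh : 0 < ‖y - x‖ := norm_pos_iff.2 (sub_ne_zero.2 hxy)
  set e : Fin n → ℂ := ((‖y - x‖ : ℂ)⁻¹) • (y - x) with he
  have hen : ‖e‖ = 1 := by
    rw [he, norm_smul, norm_inv, Complex.norm_real, norm_norm, inv_mul_cancel₀ hh.ne']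
  have hyx : ‖y - x‖ < R / 2 := by
    rw [Metric.mem_ball, dist_eq_norm] at hx hy
    calc ‖y - x‖ = ‖(y - s) - (x - s)‖ := by rw [sub_sub_sub_cancel_right]
      _ ≤ ‖y - s‖ + ‖x - s‖ := norm_sub_le _ _
      _ < R / 4 + R / 4 := add_lt_add hy hx
      _ = R / 2 := by ring
  have hin : ∀ z : ℂ, ‖z‖ < 3 * R / 4 → x + z • e ∈ Metric.ball s R := by
    intro z hz
    rw [Metric.mem_ball, dist_eq_norm] at hx ⊢
    calc ‖x + z • e - s‖ = ‖(x - s) + z • e‖ := by rw [add_sub_right_comm]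
      _ ≤ ‖x - s‖ + ‖z • e‖ := norm_add_le _ _
      _ = ‖x - s‖ + ‖z‖ := by rw [norm_smul, hen, mul_one]
      _ < R / 4 + 3 * R / 4 := add_lt_add hx hz
      _ = R := by ring
  set G : ℂ → ℂ := fun z => F (x + z • e) with hG
  have hGd : ∀ z : ℂ, ‖z‖ < 3 * R / 4 → DifferentiableAt ℂ G z := by
    intro z hz
    have h1 := hd (x + z • e) (hin z hz) e
    have h2 : G = (fun ε : ℂ => F (x + z • e + ε • e)) ∘ fun w : ℂ => w - z := by
      funext w
      simp only [hG, Function.comp]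
      congr 1
      rw [add_assoc, ← add_smul]
      congr 2
      ring
    rw [h2]
    refine DifferentiableAt.comp z ?_ ((differentiableAt_id).sub_const z)
    rw [sub_self]
    exact h1
  have hder : ∀ z ∈ Metric.ball (0 : ℂ) (R / 2), ‖deriv G z‖ ≤ C / (R / 5) := by
    intro z hz
    rw [mem_ball_zero_iff] at hz
    have hsub : ∀ w : ℂ, ‖w - z‖ ≤ R / 5 → ‖w‖ < 3 * R / 4 := by
      intro w hw
      calc ‖w‖ = ‖(w - z) + z‖ := by rw [sub_add_cancel]
        _ ≤ ‖w - z‖ + ‖z‖ := norm_add_le _ _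
        _ < R / 5 + R / 2 := add_lt_add_of_le_of_lt hw hz
        _ < 3 * R / 4 := by linarith
    refine Complex.norm_deriv_le_of_forall_mem_sphere_norm_le (by positivity) ?_ ?_
    · refine DifferentiableOn.diffContOnCl ?_
      rw [closure_ball z (by positivity)]
      intro w hw
      rw [Metric.mem_closedBall, dist_eq_norm] at hw
      exact (hGd w (hsub w hw)).differentiableWithinAt
    · intro w hw
      rw [mem_sphere_iff_norm] at hw
      exact hC _ (hin w (hsub w hw.le))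
  have hmv := Convex.norm_image_sub_le_of_norm_deriv_le (𝕜 := ℂ) (f := G)
    (s := Metric.ball (0 : ℂ) (R / 2)) (C := C / (R / 5)) (x := 0) (y := (‖y - x‖ : ℂ))
    (fun z hz => hGd z (by rw [mem_ball_zero_iff] at hz; linarith)) hder (convex_ball _ _)
    (Metric.mem_ball_self (by positivity))
    (by rw [mem_ball_zero_iff, Complex.norm_real, norm_norm]; exact hyx)
  have e1 : G (‖y - x‖ : ℂ) = F y := by
    simp only [hG, he]
    rw [smul_smul, mul_inv_cancel₀ (Complex.ofReal_ne_zero.2 hh.ne'), one_smul,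
      add_sub_cancel]
  have e2 : G 0 = F x := by simp only [hG, zero_smul, add_zero]
  rw [e1, e2, sub_zero, Complex.norm_real, norm_norm] at hmv
  exact hmv

/-- The chain rule for a continuous function which is complex differentiable along lines. -/
theorem chain {n : ℕ} (F : (Fin n → ℂ) → ℂ) (U : Set (Fin n → ℂ)) (hU : IsOpen U)
    (hF : ContinuousOn F U)
    (hd : ∀ x ∈ U, ∀ v : Fin n → ℂ, DifferentiableAt ℂ (fun ε : ℂ => F (x + ε • v)) 0)
    (s : Fin n → ℂ) (hs : s ∈ U) (c : ℝ → Fin n → ℂ) (v : Fin n → ℂ) (hc0 : c 0 = s)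
    (hc : HasDerivAt c v 0) (D : ℂ) (hD : HasDerivAt (fun ε : ℂ => F (s + ε • v)) D 0) :
    HasDerivAt (fun ε : ℝ => F (c ε)) D 0 := by
  have hcs : ContinuousAt F s := hF.continuousAt (hU.mem_nhds hs)
  have h1 : ∀ᶠ x in 𝓝 s, ‖F x‖ < ‖F s‖ + 1 :=
    hcs.norm.eventually_lt continuousAt_const (by simp)
  obtain ⟨R, hR, hball⟩ := Metric.eventually_nhds_iff_ball.1 (h1.and (hU.mem_nhds hs))
  set C : ℝ := ‖F s‖ + 1 with hC
  have hlip := lip F s R C hR (fun x hx => hd x (hball x hx).2) (fun x hx => (hball x hx).1.le)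
  have hl : HasDerivAt (fun ε : ℝ => s + (ε : ℂ) • v) v 0 := by
    have h2 : HasDerivAt (fun ε : ℝ => (ε : ℂ) • v) ((1 : ℂ) • v) 0 :=
      (Complex.ofRealCLM.hasDerivAt (x := (0 : ℝ))).smul_const v
    rw [one_smul] at h2
    exact h2.const_add s
  have hdiff : HasDerivAt (fun ε : ℝ => c ε - (s + (ε : ℂ) • v)) 0 0 := by
    have h3 := hc.sub hl
    rw [sub_self] at h3
    exact h3
  have hlo : (fun ε : ℝ => c ε - (s + (ε : ℂ) • v)) =o[𝓝 0] fun ε : ℝ => ε := by
    have h4 := hasDerivAt_iff_isLittleO.1 hdiff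
    simpa [hc0] using h4
  have hc1 : ∀ᶠ ε : ℝ in 𝓝 0, c ε ∈ Metric.ball s (R / 4) := by
    have h5 : Filter.Tendsto c (𝓝 0) (𝓝 s) := by
      have := hc.continuousAt.tendsto
      rwa [hc0] at this
    exact h5 (Metric.ball_mem_nhds s (by positivity))
  have hc2 : ∀ᶠ ε : ℝ in 𝓝 0, s + (ε : ℂ) • v ∈ Metric.ball s (R / 4) := by
    have h5 : Filter.Tendsto (fun ε : ℝ => s + (ε : ℂ) • v) (𝓝 0) (𝓝 s) := by
      have := hl.continuousAt.tendsto
      simpa using this
    exact h5 (Metric.ball_mem_nhds s (by positivity))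
  have hO : (fun ε : ℝ => F (c ε) - F (s + (ε : ℂ) • v)) =O[𝓝 0]
      fun ε : ℝ => c ε - (s + (ε : ℂ) • v) := by
    refine Asymptotics.IsBigO.of_bound (C / (R / 5)) ?_
    filter_upwards [hc1, hc2] with ε h6 h7
    exact hlip _ _ h7 h6
  have hO2 : HasDerivAt (fun ε : ℝ => F (c ε) - F (s + (ε : ℂ) • v)) 0 0 := by
    rw [hasDerivAt_iff_isLittleO]
    have h8 := hO.trans_isLittleO hlo
    simpa [hc0] using h8
  have hDr : HasDerivAt (fun ε : ℝ => F (s + (ε : ℂ) • v)) D 0 := hD.comp_ofReal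
  have h9 := hO2.add hDr
  rw [zero_add] at h9
  refine h9.congr_of_eventuallyEq (Filter.Eventually.of_forall fun ε => ?_)
  simp

end zD_aux

theorem tzD : S_cI → S_cC → S_cD1 → S_cD → S_zD := by
  intro hI hC hD1 hD r μ s hμ hs c a hc0 hc f k
  refine zD_aux.chain (fun s => Ic μ s k fun x => f.eval x) {s | Inc s} (hI.2 r μ).1
    (hC r μ hμ k f) ?_ s hs c _ hc0 hc _ ?_
  · intro x hx v
    exact (hD1 r μ x hμ hx v k f _ _ rfl fun _ => rfl).differentiableAt
  · exact hD r μ s hμ hs a f k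

end SEZ
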