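import Pool.Agent.Lib.SE.Z.Spec
import Pool.Agent.Lib.SE.Big.eS
import Pool.Agent.Lib.SE.Big.eM
import Pool.Agent.Lib.SE.Big.dSp

/-!
# PROJECT SE-Z, module zN: `J` is not constant along a curve (helper13)
-/

set_option autoImplicit false

open Module MeasureTheory Topology

noncomputable section

namespace SEZ

open HC HC.E HC.SE SEB SEQ SEG SEY SEX

namespace zN_aux

/-- `Thc` is homogeneous in the vector field -/
theorem Th_C_left {r : ℕ} (μ : Fin (r + 1) → ℝ) (s : Fin (r + 1) → ℂ) (c : ℂ)
    (a f : Polynomial ℂ) :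
    Thc μ s (Polynomial.C c * a) f = Polynomial.C c * Thc μ s a f := by
  have h1 : ∀ x : ℂ, (Polynomial.C c * a) /ₘ (Polynomial.X - Polynomial.C x) =
      Polynomial.C c * (a /ₘ (Polynomial.X - Polynomial.C x)) := by
    intro x
    refine (Polynomial.div_modByMonic_unique _
      (Polynomial.C c * (a %ₘ (Polynomial.X - Polynomial.C x)))
      (Polynomial.monic_X_sub_C x) ⟨?_, ?_⟩).1
    · have h2 := Polynomial.modByMonic_add_div a (Polynomial.X - Polynomial.C x)
      conv_rhs => rw [← h2]
      ring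
    · refine lt_of_le_of_lt ?_ (Polynomial.degree_modByMonic_lt a
        (Polynomial.monic_X_sub_C x))
      rw [Polynomial.degree_mul]
      calc _ ≤ 0 + (a %ₘ (Polynomial.X - Polynomial.C x)).degree :=
            add_le_add Polynomial.degree_C_le le_rfl
        _ = _ := zero_add _
  unfold Thc
  simp only [h1, Polynomial.derivative_C_mul]
  have h3 : ∑ j, Polynomial.C (μ j : ℂ) *
      (Polynomial.C c * (a /ₘ (Polynomial.X - Polynomial.C (s j)))) =
      Polynomial.C c * ∑ j, Polynomial.C (μ j : ℂ) *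
        (a /ₘ (Polynomial.X - Polynomial.C (s j))) := by
    rw [Finset.mul_sum]
    exact Finset.sum_congr rfl fun j _ => by ring
  rw [h3]
  ring

end zN_aux

open cRk1_aux cDj_aux eM_aux eS_aux dSp_aux zN_aux in
theorem tzN : S_zD → S_cKap → S_cPv → S_cE → S_cJx → S_Sg → S_zN := by
  intro hD hKap hPv hE hJx hSg m r b u s hadm hnd hNj hp hq c v hc0 hcv hcase J hJ hcon
  have D := mkDt hPv hKap hE hSg hadm
  obtain ⟨-, hExq, -, hkap⟩ := hKap m r b u s hadm
  have hinj : ∀ f : Polynomial ℂ, f.degree < (r : WithBot ℕ) → Pc m b u s f = 0 → f = 0 := by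
    intro f hf h0
    refine hNj f hf fun k => ?_
    have h1 : kap m b u k * Ic (mu m b u) s k (fun x => f.eval x) = 0 := congrFun h0 k
    exact (mul_eq_zero.1 h1).resolve_left (hkap k).1
  obtain ⟨J', -, huniq, -, hplus, -, -, -⟩ := hJx m r b u s hadm hnd
  have hJJ := huniq J hJ
  subst hJJ
  have hsg := D.sgm
  -- the derivative
  have key : ∀ a f : Polynomial ℂ, (∀ j, a.eval (s j) = v j) →
      f.degree < (sg m r b u : WithBot ℕ) → ∃ g : Polynomial ℂ,
      g.degree < (sg m r b u : WithBot ℕ) ∧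
        Pc m b u s (Thc (mu m b u) s a f) = Pc m b u s g := by
    intro a f ha hf
    have hcv' : HasDerivAt c (fun j => a.eval (s j)) 0 := by
      have : (fun j => a.eval (s j)) = v := funext ha
      rw [this]
      exact hcv
    have hder : HasDerivAt (fun ε : ℝ => Pc m b u (c ε) f)
        (Pc m b u s (Thc (mu m b u) s a f)) 0 := by
      refine hasDerivAt_pi.2 fun k => ?_
      exact (hD r (mu m b u) s hExq hadm.1 c a hc0 hcv' f k).const_mul (kap m b u k)
    have h1 := deriv_theta J hder
    have h2 := hder.const_smul Complex.I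
    have heq : (fun ε : ℝ => J (Pc m b u (c ε) f)) =ᶠ[𝓝 (0 : ℝ)]
        fun ε : ℝ => Complex.I • Pc m b u (c ε) f := by
      filter_upwards [hcon] with ε hε
      exact hε.1 f hf
    have h3 : J (Pc m b u s (Thc (mu m b u) s a f)) =
        Complex.I • Pc m b u s (Thc (mu m b u) s a f) :=
      h1.unique (h2.congr_of_eventuallyEq heq)
    exact (hplus _).1 h3
  rcases hcase with ⟨l, hl, hv⟩ | hv
  · have hdeg : (1 : Polynomial ℂ).degree < (sg m r b u : WithBot ℕ) := by
      rw [Polynomial.degree_one]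
      exact_mod_cast hp
    obtain ⟨g, hg, hge⟩ := key (Polynomial.C (v l) * ac s l) 1 (fun j => by
      rw [Polynomial.eval_mul, Polynomial.eval_C, eval_ac s D.inj l j]
      split_ifs with h
      · rw [h, mul_one]
      · rw [mul_zero, hv j h]) hdeg
    rw [Th_C_left, D.sm] at hge
    exact hl (D.nsp hinj (p := sg m r b u) (by omega) l (v l) g hg hge)
  · obtain ⟨q, hq'⟩ : ∃ q, sg m r b u = q + 1 := ⟨sg m r b u - 1, by omega⟩
    have hdeg : (Polynomial.X ^ q : Polynomial ℂ).degree < (sg m r b u : WithBot ℕ) := by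
      rw [Polynomial.degree_X_pow, hq']
      exact_mod_cast Nat.lt_succ_self q
    obtain ⟨g, hg, hge⟩ := key (Polynomial.X ^ 2) (Polynomial.X ^ q) (fun j => by
      rw [Polynomial.eval_pow, Polynomial.eval_X, hv j]) hdeg
    rw [th2] at hge
    set α : ℂ := (q : ℂ) + 2 - ∑ j, (mu m b u j : ℂ) with hα
    set β : ℂ := ∑ j, (mu m b u j : ℂ) * s j with hβ
    have hgr : ((q + 1 : ℕ) : WithBot ℕ) < (r : WithBot ℕ) := by
      exact_mod_cast (by omega : q + 1 < r)
    have hdX : ∀ (z : ℂ) (n : ℕ), n ≤ q + 1 →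
        (Polynomial.C z * Polynomial.X ^ n : Polynomial ℂ).degree < (r : WithBot ℕ) := by
      intro z n hn
      refine lt_of_le_of_lt (Polynomial.degree_C_mul_X_pow_le n z) (lt_of_le_of_lt ?_ hgr)
      exact_mod_cast hn
    have hz : (Polynomial.C α * Polynomial.X ^ (q + 1) - Polynomial.C β * Polynomial.X ^ q) - g =
        0 := by
      refine hinj _ ?_ ?_
      · refine lt_of_le_of_lt (Polynomial.degree_sub_le _ _) (max_lt ?_ ?_)
        · exact lt_of_le_of_lt (Polynomial.degree_sub_le _ _)
            (max_lt (hdX _ _ le_rfl) (hdX _ _ (by omega)))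
        · rw [hq'] at hg
          exact hg.trans hgr
      · rw [D.sub, hge, sub_self]
    have hco := congrArg (fun f : Polynomial ℂ => f.coeff (q + 1)) hz
    simp only [Polynomial.coeff_sub, Polynomial.coeff_C_mul, Polynomial.coeff_X_pow,
      Polynomial.coeff_zero] at hco
    rw [Polynomial.coeff_eq_zero_of_degree_lt (by rw [hq'] at hg; exact hg), if_true,
      if_neg (by omega), mul_one, mul_zero, sub_zero, sub_zero, hα] at hco
    apply D.mu ((q : ℤ) + 2)
    have h4 : ((∑ j, SEB.mu m b u j : ℝ) : ℂ) = (((q : ℤ) + 2 : ℤ) : ℂ) := by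
      push_cast
      linear_combination -hco
    exact_mod_cast h4

end SEZ
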