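import Pool.Agent.Lib.SE.Z.Spec
import Pool.Agent.Lib.SE.X.xP
import Pool.Agent.Lib.SE.Big.cSo

/-!
# PROJECT SE-Z, module zP: topology, preimages of meagre sets (helper56)
-/

set_option autoImplicit false

open Module MeasureTheory Topology

noncomputable section

namespace SEZ

open HC HC.E HC.SE SEB SEQ SEG SEY SEX

namespace zP_aux

/-- The vectors with nonzero coordinates. -/
def Un (n : ℕ) : Set (Fin n → ℂ) := {z | ∀ j, z j ≠ 0}

theorem Un_open (n : ℕ) : IsOpen (Un n) := by
  have h : Un n = ⋂ j, {z : Fin n → ℂ | z j ≠ 0} := by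
    ext z
    simp only [Un, Set.mem_ofPred_eq, Set.mem_iInter]
  rw [h]
  exact isOpen_iInter_of_finite fun j => isOpen_ne_fun (continuous_apply j) continuous_const

/-- The inversion of the coordinates. -/
def iv (n : ℕ) (z : Un n) : Un n := ⟨fun j => (z.1 j)⁻¹, fun j => inv_ne_zero (z.2 j)⟩

theorem iv_iv (n : ℕ) (z : Un n) : iv n (iv n z) = z := by
  apply Subtype.ext
  funext j
  exact inv_inv (z.1 j)

theorem iv_cont (n : ℕ) : Continuous (iv n) := by
  refine Continuous.subtype_mk (continuous_pi fun j => ?_) _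
  exact ((continuous_apply j).comp continuous_subtype_val).inv₀ fun z => z.2 j

/-- The inversion as a homeomorphism. -/
def ih (n : ℕ) : Un n ≃ₜ Un n where
  toFun := iv n
  invFun := iv n
  left_inv := iv_iv n
  right_inv := iv_iv n
  continuous_toFun := iv_cont n
  continuous_invFun := iv_cont n

theorem inv_meagre {n : ℕ} {A : Set (Fin n → ℂ)} (hA : IsMeagre A) :
    IsMeagre {z : Fin n → ℂ | (∀ j, z j ≠ 0) ∧ (fun j => (z j)⁻¹) ∈ A} := by
  have h1 : IsMeagre ((Subtype.val : Un n → Fin n → ℂ) ⁻¹' A) :=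
    hA.preimage_of_isOpenMap continuous_subtype_val (Un_open n).isOpenMap_subtype_val
  have h2 : IsMeagre ((ih n) ⁻¹' ((Subtype.val : Un n → Fin n → ℂ) ⁻¹' A)) :=
    h1.preimage_of_isOpenMap (ih n).continuous (ih n).isOpenMap
  refine (Topology.IsInducing.subtypeVal.isMeagre_image h2).mono ?_
  intro z hz
  exact ⟨⟨z, hz.1⟩, hz.2, rfl⟩

/-- `s ↦ (s_(ι j) - s_i)_j` -/
def df {k n : ℕ} (ι : Fin k → Fin n) (i : Fin n) : (Fin n → ℂ) →L[ℂ] (Fin k → ℂ) :=
  ContinuousLinearMap.pi fun j =>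
    (ContinuousLinearMap.proj (R := ℂ) (φ := fun _ : Fin n => ℂ) (ι j) -
      ContinuousLinearMap.proj (R := ℂ) (φ := fun _ : Fin n => ℂ) i)

theorem df_apply {k n : ℕ} (ι : Fin k → Fin n) (i : Fin n) (s : Fin n → ℂ) (j : Fin k) :
    df ι i s j = s (ι j) - s i := rfl

theorem df_surj {k n : ℕ} {ι : Fin k → Fin n} (hι : Function.Injective ι) {i : Fin n}
    (hi : ∀ j, ι j ≠ i) : Function.Surjective (df ι i) := fun t => by
  obtain ⟨s, hs⟩ := (hι.surjective_comp_right (γ := ℂ)) t
  refine ⟨Function.update s i 0, ?_⟩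
  funext j
  rw [df_apply, Function.update_self, Function.update_of_ne (hi j), sub_zero]
  exact congrFun hs j

theorem pre (p r : ℕ) (ι : Fin (r + 1) → Fin p) (k : Option (Fin p)) (hk : Okk ι k)
    (A : Set (Fin (r + 1) → ℂ)) (hA : IsMeagre A) :
    IsMeagre {s : Fin p → ℂ | Function.Injective s ∧ pt s ι k ∈ A} := by
  obtain ⟨hι, hk⟩ := hk
  cases k with
  | none =>
    refine (xP_aux.pre ι A hι hA).mono ?_
    intro s hs
    exact hs.2
  | some i =>
    have hi : ∀ j, ι j ≠ i := fun j => (hk i rfl j).ne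
    have h1 := (inv_meagre hA).preimage_of_isOpenMap (df ι i).continuous
      ((df ι i).isOpenMap (df_surj hι hi))
    refine h1.mono ?_
    intro s hs
    refine ⟨fun j => ?_, hs.2⟩
    rw [df_apply]
    exact sub_ne_zero.2 fun h => hi j (hs.1 h)

theorem meagre_eq {p : ℕ} {i j : Fin p} (hij : i ≠ j) :
    IsMeagre {s : Fin p → ℂ | s i = s j} := by
  have h0 : IsMeagre ({0} : Set (Fin 1 → ℂ)) := by
    apply IsNowhereDense.isMeagre
    rw [(isClosed_singleton).isNowhereDense_iff]
    exact interior_singleton 0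
  have hs : Function.Surjective (df (fun _ : Fin 1 => i) j) :=
    df_surj (Function.injective_of_subsingleton _) fun _ => hij
  have h1 : IsMeagre ((df (fun _ : Fin 1 => i) j) ⁻¹' {0}) :=
    h0.preimage_of_isOpenMap (df (fun _ : Fin 1 => i) j).continuous
      ((df (fun _ : Fin 1 => i) j).isOpenMap hs)
  refine h1.mono ?_
  intro s hs
  have hs' : s i = s j := hs
  change df (fun _ : Fin 1 => i) j s = 0
  funext l
  rw [df_apply, hs', sub_self]
  rfl

end zP_aux

theorem tzP : S_zP := by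
  refine ⟨zP_aux.pre, fun p r ι k hk => ?_, fun p => ?_⟩
  · have h1 := tcSo r (fun _ => ∅) fun _ => IsMeagre.empty
    refine (zP_aux.pre p r ι k hk _ h1).mono ?_
    intro s hs
    refine ⟨hs.1, fun σ hσ => ?_⟩
    exact absurd hσ (hs.2 σ)
  · have h1 : IsMeagre (⋃ q : {q : Fin p × Fin p // q.1 ≠ q.2},
        {s : Fin p → ℂ | s q.1.1 = s q.1.2}) :=
      isMeagre_iUnion fun q => zP_aux.meagre_eq q.2
    refine h1.mono ?_
    intro s hs
    have hs' : ¬ Function.Injective s := hs
    simp only [Function.Injective] at hs'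
    push Not at hs'
    obtain ⟨i, j, hij, hne⟩ := hs'
    exact Set.mem_iUnion.2 ⟨⟨(i, j), hne⟩, hij⟩

end SEZ
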