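import Pool.Agent.Lib.SE.X.Main
import Pool.Agent.Lib.SE.Z.Asm
import Pool.Agent.Lib.SE.Z.zD
import Pool.Agent.Lib.SE.Z.zN
import Pool.Agent.Lib.SE.Z.zP
import Pool.Agent.Lib.SE.Z.zC

/-!
# PROJECT SE-Z: the modules (helper64)
-/

set_option autoImplicit false

noncomputable section

namespace SEZ

open HC HC.E HC.SE SEB SEQ SEG SEY SEX

theorem zD' : S_zD := tzD cI' cC' cD1' cD'

theorem zN' : S_zN := tzN zD' cKap' cPv' cE' cJx' tSg

theorem zC' : S_zC := tzC zN' tzP cN' cKap' cPv' cC' cI' cJx' cCj' tSg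

/-- **Jnz.** Very general points of the line. -/
theorem tJnz : S_Jnz := jnz_of modsX tzP zC'

end SEZ
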