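import Pool.Agent.Lib.SE.X.Spec

/-!
# PROJECT SE-Z: all cyclic covers branched at very general points of the projective line (helper64)

As SE-X, also for the covers which are not branched at `∞`: all cyclic covers of the line branched at some (at
least 5) of the points `s_1, …, s_p, ∞`. If `∞` is not a branch point, the branch point `s_k` with the largest index
is moved to infinity by `x ↦ 1 / (x - s_k)`.

Every module: file `SE/Z/zXyz.lean`, `theorem tzXyz : S_zXyz`, namespace `SEZ` (after it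
`open HC HC.E HC.SE SEB SEQ SEG SEY SEX`), import `Pool.Agent.Lib.SE.Z.Spec` and the proved modules you want. If the
docstring says `From S_A` the theorem is `tzXyz : S_A → S_zXyz`. Auxiliary lemmas in `namespace SEZ.zXyz_aux`.
-/

set_option autoImplicit false

open Module MeasureTheory Topology

noncomputable section

namespace SEZ

open HC HC.E HC.SE SEB SEQ SEG SEY SEX

/-- The finite branch points, `s_(ι j)`, in the coordinate `x` (`k = none`) or `1 / (x - s_k)`. -/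
def pt {p r : ℕ} (s : Fin p → ℂ) (ι : Fin (r + 1) → Fin p) : Option (Fin p) → Fin (r + 1) → ℂ
  | none => s ∘ ι
  | some k => fun j => (s (ι j) - s k)⁻¹

/-- `ι` is injective, `k` is larger than all `ι j`. -/
def Okk {p r : ℕ} (ι : Fin (r + 1) → Fin p) (k : Option (Fin p)) : Prop :=
  Function.Injective ι ∧ ∀ i, k = some i → ∀ j, ι j < i

/-- The indices of the finite branch points. -/
def Bs {p r : ℕ} (ι : Fin (r + 1) → Fin p) (k : Option (Fin p)) : Set (Fin p) :=
  Set.range ι ∪ {i | k = some i}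

/-- CHAIN RULE: the derivative of the integrals along a curve. From `S_cI`, `S_cC`, `S_cD1`, `S_cD`. PROOF.
`F(s) = Ic μ s k f` is continuous on the open set `Inc` (`S_cC`, `S_cI`), so bounded by a constant `C` on a ball
`B(s, 2 δ) ⊆ Inc`, and complex differentiable along lines (`S_cD1` at every point of the line). For `x`, `x + h` in
`B(s, δ/2)`, `h ≠ 0`, the function `G(z) = F(x + z h/‖h‖)` is differentiable and bounded by `C` for `|z| < δ`, so
`|G'(z)| ≤ 2 C/δ` for `|z| ≤ δ/2` (`Complex.norm_deriv_le_of_forall_mem_sphere_norm_le`) and `|F(x + h) - F(x)| ≤ (4 C/δ) ‖h‖` for small `h` (`Convex.norm_image_sub_le_of_norm_deriv_le`). So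
`F(c(ε)) - F(s + ε v) = O(‖c(ε) - s - ε v‖) = o(ε)`, and `ε ↦ F(s + ε v)`, `v_j = a(s_j)`, has the derivative `Ic (Thc a f)` at `0`
(`S_cD`; `ε` real: `HasDerivAt.comp_ofReal`). -/
def S_zD : Prop :=
  ∀ (r : ℕ) (μ : Fin (r + 1) → ℝ) (s : Fin (r + 1) → ℂ), Exq μ → Inc s →
    ∀ (c : ℝ → Fin (r + 1) → ℂ) (a : Polynomial ℂ), c 0 = s →
    HasDerivAt c (fun j => a.eval (s j)) 0 → ∀ (f : Polynomial ℂ) (k : Fin r),
    HasDerivAt (fun ε : ℝ => Ic μ (c ε) k fun x => f.eval x)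
      (Ic μ s k fun x => (Thc μ s a f).eval x) 0

/-- `J` IS NOT CONSTANT along a curve which moves only the point `s_l`, or moves the `s_j` with the speed
`s_j²`. From `S_zD`, `S_cKap`, `S_cPv`, `S_cE`, `S_cJx`, `S_Sg`. PROOF. As SE/X/xN.lean. Let `q = sg m r b u`, `1 ≤ q ≤ r - 1` (`S_Sg`). If the
statement is false then for `deg f < q`, `a` with `a(s_j) = v_j`: `J (Pc f) = i Pc f` along the curve; differentiate (`S_zD`,
`Pc` = a constant times `Ic`): `J Pc(Thc a f) = i Pc(Thc a f)`, so (`S_cJx`) `Pc(Thc a f) = Pc g`, `deg g < q`. First case: `a = v_l ac s l`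
(`cRk1_aux.ac`: `a(s_l) = v_l`, `a(s_j) = 0`), `f = 1`: contradiction by `eS_aux.Dt.nsp` (SE/Big/eS.lean; `Thc` is linear in `a`). Second case:
`a = X²`, `f = X^(q-1)`: `X² /ₘ (X - s_j) = X + s_j`, `Thc a f = (q + 1 - ∑ μ_j) X^q - (∑ μ_j s_j) X^(q-1)` has degree `q < r`, because
`∑ μ_j` is not an integer (`S_cKap`): `Nj` for `Thc a f - g` gives a contradiction. -/
def S_zN : Prop :=
  ∀ (m r : ℕ) (b : Fin (r + 1) → ℕ) (u : ℕ) (s : Fin (r + 1) → ℂ), Admc m b u s → NDc m b u s →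
    Nj (mu m b u) s → 0 < sg m r b u → 0 < sg m r b (m - u) →
    ∀ (c : ℝ → Fin (r + 1) → ℂ) (v : Fin (r + 1) → ℂ), c 0 = s → HasDerivAt c v 0 →
    ((∃ l, v l ≠ 0 ∧ ∀ j, j ≠ l → v j = 0) ∨ ∀ j, v j = s j ^ 2) →
    ∀ J, IsJc m b u s J → ¬ ∀ᶠ ε in 𝓝 (0 : ℝ), IsJc m b u (c ε) J

/-- TOPOLOGY. PROOF. (1) `k = none`: `S_xP`. `k = some i`: `i` is not in the range of `ι`; `L(s) = (s_(ι j) - s_i)_j` is linear and
surjective, so open; the inversion of all coordinates is a homeomorphism of the open set `{z | ∀ j, z_j ≠ 0}` of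
`ℂ^(r+1)`. (2) `S_cSo` (SE/Big/cSo.lean) with `A σ = ∅`, and (1). (3) The sets `{s | s i = s j}`, `i ≠ j`, are closed with empty
interior. -/
def S_zP : Prop :=
  (∀ (p r : ℕ) (ι : Fin (r + 1) → Fin p) (k : Option (Fin p)), Okk ι k →
    ∀ A : Set (Fin (r + 1) → ℂ), IsMeagre A →
      IsMeagre {s : Fin p → ℂ | Function.Injective s ∧ pt s ι k ∈ A}) ∧
  (∀ (p r : ℕ) (ι : Fin (r + 1) → Fin p) (k : Option (Fin p)), Okk ι k →
    IsMeagre {s : Fin p → ℂ | Function.Injective s ∧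
      ∀ σ : Equiv.Perm (Fin (r + 1)), ¬ Inc (pt s ι k ∘ σ)}) ∧
  ∀ p : ℕ, IsMeagre {s : Fin p → ℂ | ¬ Function.Injective s}

/-- BAIRE, different sets of branch points. From `S_zN`, `S_zP`, `S_cN`, `S_cKap`, `S_cPv`, `S_cC`, `S_cI`, `S_cJx`, `S_cCj`, `S_Sg`. PROOF. As
SE/X/xC.lean. There are countably many `B`. For each of them the set is relatively closed in the open set of all
injective `s` with `Admc`, `NDc` for `pt s ι k` and `pt s ι' k'` (`s ↦ pt s ι k` is continuous on the injective `s`). If it contains a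
nonempty open set `W`: there is `s ∈ W` such that `Nj (mu m' b' v)` holds at `pt s ι' k'` (`S_cN` and (1) of `S_zP`, Baire). Let
`s_ε = s + ε e_i`, `i ∈ Bs ι' k'`, `i ∉ Bs ι k`. `pt s_ε ι k = pt s ι k`, so `J' = B J B⁻¹` is the same operator for small `ε`. But `c(ε) = pt s_ε ι' k'` is
a curve as in `S_zN`: `k' = none`, `i = ι' l`: velocity `e_l`; `k' = some i'`, `i = ι' l`: velocity `- σ_l² e_l`, `σ = pt s ι' k'`, `σ_l ≠ 0`;
`k' = some i`: `c(ε)_j = 1/(s_(ι' j) - s_i - ε)`, velocity `σ_j²` at `j`. -/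
def S_zC : Prop :=
  ∀ (p m m' r : ℕ) (b b' : Fin (r + 1) → ℕ) (u v : ℕ) (ι ι' : Fin (r + 1) → Fin p)
    (k k' : Option (Fin p)) (i : Fin p), Okk ι k → Okk ι' k' → i ∈ Bs ι' k' → i ∉ Bs ι k →
    0 < sg m' r b' v → 0 < sg m' r b' (m' - v) →
    IsMeagre {s : Fin p → ℂ | Function.Injective s ∧
      (Admc m b u (pt s ι k) ∧ NDc m b u (pt s ι k)) ∧
      (Admc m' b' v (pt s ι' k') ∧ NDc m' b' v (pt s ι' k')) ∧
      ∃ B, AlgB B ∧ ∃ J J', IsJc m b u (pt s ι k) J ∧ IsJc m' b' v (pt s ι' k') J' ∧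
        B * J = J' * B}

end SEZ
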